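import Pool.Agent.Y58.Skw.Poly

/-!
# All stable polynomials with parity, and all real-rooted ones of arbitrary degree in `y`

(1) A complex polynomial `p` in `x`, `y` of total degree `n` whose monomials have degrees congruent
to `n` modulo `2` is stable if and only if `p = c det(A + i (x B₁ + y B₂))` with `A` real
skew-symmetric, `B₁`, `B₂` real positive semidefinite and `B₁ + B₂ = 1`; moreover `B₁` (`B₂`) is
positive definite as soon as the top form of `p` is nonzero at `(1, 0)` (at `(0, 1)`). Nothing is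
assumed about the top form.

(2) Let the leading coefficient of `p` in `x` be a constant, `N` the degree in `x`, all monomials of
degree congruent to `N` modulo `2`; the degree in `y` is arbitrary. Then `p(x, y) ≠ 0` for all real
`y` and all `x` in the upper half plane if and only if
`p = c det(i x + A₀ + i y A₁ + (i y)² A₂ + ...)` with real `N × N` matrices, `A₀`, `A₂`, ...
skew-symmetric and `A₁`, `A₃`, ... symmetric; only `A₀` and `A₁` are needed if the total degree of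
`p` is `N`.
-/

set_option autoImplicit false

namespace Pool.Agent.Results.MP_ca7272_al.RealRootedPencils

open Matrix MvPolynomial Pool.Agent.W450 Pool.Agent.Y58.Skw

/-- a real matrix as a matrix over `ℂ[x, y]` -/
noncomputable def cst {n : ℕ} (A : Matrix (Fin n) (Fin n) ℝ) :
    Matrix (Fin n) (Fin n) (MvPolynomial (Fin 2) ℂ) :=
  A.map (fun a : ℝ => (C (a : ℂ) : MvPolynomial (Fin 2) ℂ))

theorem funext2 {p q : MvPolynomial (Fin 2) ℂ}
    (h : ∀ x y : ℂ, eval ![x, y] p = eval ![x, y] q) : p = q := by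
  apply MvPolynomial.funext
  intro v
  have hv : v = ![v 0, v 1] := by
    funext i; fin_cases i <;> rfl
  rw [hv]
  exact h _ _

theorem eval_lin {n : ℕ} (A B₁ B₂ : Matrix (Fin n) (Fin n) ℝ) (c x y : ℂ) :
    eval ![x, y] (C c * (cst A + (C Complex.I : MvPolynomial (Fin 2) ℂ) •
      ((X 0 : MvPolynomial (Fin 2) ℂ) • cst B₁ + (X 1 : MvPolynomial (Fin 2) ℂ) • cst B₂)).det) =
      c * (cm A + Complex.I • (x • cm B₁ + y • cm B₂)).det := by
  rw [map_mul, eval_C, RingHom.map_det]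
  congr 2
  ext i j
  simp [cst]

theorem eval_pol {N d : ℕ} (A : ℕ → Matrix (Fin N) (Fin N) ℝ) (c x y : ℂ) :
    eval ![x, y] (C c * ((C Complex.I * X 0 : MvPolynomial (Fin 2) ℂ) •
      (1 : Matrix (Fin N) (Fin N) (MvPolynomial (Fin 2) ℂ)) +
        ∑ k ∈ Finset.range d, (C Complex.I * X 1 : MvPolynomial (Fin 2) ℂ) ^ k • cst (A k)).det) =
      c * (pencil d A x y).det := by
  rw [map_mul, eval_C, RingHom.map_det]
  congr 2
  ext i j
  simp only [pencil, RingHom.mapMatrix_apply, Matrix.map_apply, Matrix.add_apply,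
    Matrix.smul_apply, Matrix.sum_apply, map_add, map_sum, smul_eq_mul, map_mul, map_pow, eval_C,
    eval_X, cst, Matrix.one_apply, cons_val_zero, cons_val_one]
  congr 1
  split_ifs <;> simp

theorem result :
    (∀ (n : ℕ) (p : MvPolynomial (Fin 2) ℂ), p.totalDegree = n →
      (∀ m ∈ p.support, (m 0 + m 1) % 2 = n % 2) →
      ((∀ x y : ℂ, 0 < x.im → 0 < y.im → eval ![x, y] p ≠ 0) ↔
        ∃ (A B₁ B₂ : Matrix (Fin n) (Fin n) ℝ) (c : ℂ),
          Aᵀ = -A ∧ B₁.PosSemidef ∧ B₂.PosSemidef ∧ B₁ + B₂ = 1 ∧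
          (eval ![1, 0] (homogeneousComponent n p) ≠ 0 → B₁.PosDef) ∧
          (eval ![0, 1] (homogeneousComponent n p) ≠ 0 → B₂.PosDef) ∧ c ≠ 0 ∧
          p = C c * (cst A + (C Complex.I : MvPolynomial (Fin 2) ℂ) •
            ((X 0 : MvPolynomial (Fin 2) ℂ) • cst B₁ +
              (X 1 : MvPolynomial (Fin 2) ℂ) • cst B₂)).det)) ∧
    (∀ (N : ℕ) (p : MvPolynomial (Fin 2) ℂ),
      (∀ m ∈ p.support, m 0 ≤ N ∧ (m 0 = N → m 1 = 0)) → p.coeff (Finsupp.single 0 N) ≠ 0 →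
      (∀ m ∈ p.support, (m 0 + m 1) % 2 = N % 2) →
      ((∀ (x : ℂ) (y : ℝ), 0 < x.im → eval ![x, (y : ℂ)] p ≠ 0) ↔
        ∃ (d : ℕ) (A : ℕ → Matrix (Fin N) (Fin N) ℝ) (c : ℂ),
          (∀ k, (A k)ᵀ = (-1) ^ (k + 1) • A k) ∧ (p.totalDegree ≤ N → d = 2) ∧ c ≠ 0 ∧
          p = C c * ((C Complex.I * X 0 : MvPolynomial (Fin 2) ℂ) •
            (1 : Matrix (Fin N) (Fin N) (MvPolynomial (Fin 2) ℂ)) +
              ∑ k ∈ Finset.range d,
                (C Complex.I * X 1 : MvPolynomial (Fin 2) ℂ) ^ k • cst (A k)).det)) := by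
  refine ⟨fun n p hdeg hpar => ⟨fun hst => ?_, ?_⟩, fun N p hx hN hpar => ⟨fun hyp => ?_, ?_⟩⟩
  · obtain ⟨A, B₁, B₂, c, h1, h2, h3, h4, h5, h6, h7, h8⟩ := stable_rep hdeg hpar hst
    refine ⟨A, B₁, B₂, c, h1, h2, h3, h4, h7, h8, h5, funext2 fun x y => ?_⟩
    rw [eval_lin, h6]
  · rintro ⟨A, B₁, B₂, c, h1, h2, h3, h4, -, -, h5, h6⟩ x y hx hy
    rw [h6, eval_lin]
    exact mul_ne_zero h5 (det_ne h1 h2 h3 h4 hx hy)
  · obtain ⟨d, A, c, h1, h2, h3, h4⟩ := poly_rep hx hN hpar hyp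
    refine ⟨d, A, c, h1, fun hd => h4 fun m hm => deg_le_of_mem hd hm, h2,
      funext2 fun x y => ?_⟩
    rw [eval_pol, h3]
  · rintro ⟨d, A, c, h1, -, h2, h3⟩ x y hx
    rw [h3, eval_pol]
    exact mul_ne_zero h2 (pencil_det_ne h1 hx y)

end Pool.Agent.Results.MP_ca7272_al.RealRootedPencils
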